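import Mathlib
import Pool.Agent.H37.Cfg17Model
import Pool.Agent.H37.Cfg17Transfer

set_option autoImplicit false

/-!
The topologically realizable `(17_4)` configuration has no symmetric topological realization lying
in the Euclidean plane proper.
-/

namespace Pool.Agent.Results.MP_640900_co.NoSymmetry

open Pool.Agent.H37.Cfg17Model

/-- Every topological realization of the `(17_4)` configuration `C` lying in the Euclidean plane
proper has only the trivial symmetry. -/
theorem result (point : Fin 17 → ProjPlane) (curve : Fin 17 → Set ProjPlane)
    (hR : IsRealization point curve) (hE : InEuclideanPlane point curve) (g : Plane ≃ᵢ Plane) :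
    ¬ IsSymmetry point curve g :=
  no_symmetry point curve hR hE g

end Pool.Agent.Results.MP_640900_co.NoSymmetry
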